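import Pool.Agent.Helper19.HO.Defs

/-!
# Project HO (MP_19c155_gt), piece HO-10: rotation invariance of the Gaussian weight
-/

open MeasureTheory Set Metric Filter Module
open scoped NNReal Topology RealInnerProductSpace ENNReal Real ContDiff Manifold

namespace Pool.Agent.Helper19.HO

section P10

variable {E H ι : Type*} [NormedAddCommGroup E] [InnerProductSpace ℝ E] [NormedAddCommGroup H]
  [InnerProductSpace ℝ H] [Fintype ι] [FiniteDimensional ℝ E] [FiniteDimensional ℝ H]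
  [MeasurableSpace E] [BorelSpace E]

omit [FiniteDimensional ℝ E] [FiniteDimensional ℝ H] [MeasurableSpace E] [BorelSpace E] in
theorem P10_act_apply (b : OrthonormalBasis ι ℝ H) (p : PiLp 2 (fun _ : ι => E)) (h : H) :
    act b p h = ∑ j, ⟪b j, h⟫ • p j := by
  simp [act, ContinuousLinearMap.sum_apply]

/-- the linear map `p ↦ (act b p (U (b j)))_j`. -/
noncomputable def P10T (b : OrthonormalBasis ι ℝ H) (U : H ≃ₗᵢ[ℝ] H) :
    PiLp 2 (fun _ : ι => E) →ₗ[ℝ] PiLp 2 (fun _ : ι => E) where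
  toFun p := WithLp.toLp 2 (fun j => ∑ i, ⟪b i, U (b j)⟫ • p i)
  map_add' p q := by
    ext j
    simp [smul_add, Finset.sum_add_distrib]
  map_smul' c p := by
    ext j
    simp only [PiLp.smul_apply, RingHom.id_apply, Finset.smul_sum]
    exact Finset.sum_congr rfl fun i _ => smul_comm _ _ _

omit [FiniteDimensional ℝ E] [FiniteDimensional ℝ H] [MeasurableSpace E] [BorelSpace E] in
theorem P10T_apply (b : OrthonormalBasis ι ℝ H) (U : H ≃ₗᵢ[ℝ] H) (p : PiLp 2 (fun _ : ι => E))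
    (j : ι) : P10T b U p j = ∑ i, ⟪b i, U (b j)⟫ • p i := rfl

omit [FiniteDimensional ℝ E] [FiniteDimensional ℝ H] [MeasurableSpace E] [BorelSpace E] in
theorem P10T_norm (b : OrthonormalBasis ι ℝ H) (U : H ≃ₗᵢ[ℝ] H) (p : PiLp 2 (fun _ : ι => E)) :
    ‖P10T b U p‖ = ‖p‖ := by
  classical
  have h2 : ‖P10T b U p‖ ^ 2 = ‖p‖ ^ 2 := by
    rw [PiLp.norm_sq_eq_of_L2, PiLp.norm_sq_eq_of_L2]
    have e1 : ∀ j, ‖P10T b U p j‖ ^ 2
        = ∑ i, ∑ i', (⟪b i, U (b j)⟫ * ⟪b i', U (b j)⟫) * ⟪p i, p i'⟫ := by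
      intro j
      rw [← real_inner_self_eq_norm_sq, P10T_apply, sum_inner]
      refine Finset.sum_congr rfl fun i _ => ?_
      rw [inner_sum]
      refine Finset.sum_congr rfl fun i' _ => ?_
      rw [real_inner_smul_left, real_inner_smul_right]
      ring
    simp_rw [e1]
    rw [Finset.sum_comm]
    have e2 : ∀ i, ∑ j, ∑ i', (⟪b i, U (b j)⟫ * ⟪b i', U (b j)⟫) * ⟪p i, p i'⟫ = ‖p i‖ ^ 2 := by
      intro i
      rw [Finset.sum_comm]
      have e3 : ∀ i', ∑ j, (⟪b i, U (b j)⟫ * ⟪b i', U (b j)⟫) * ⟪p i, p i'⟫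
          = (if i = i' then 1 else 0) * ⟪p i, p i'⟫ := by
        intro i'
        rw [← Finset.sum_mul]
        congr 1
        have e4 : ∀ k j, ⟪b k, U (b j)⟫ = ⟪U.symm (b k), b j⟫ := by
          intro k j
          have := U.inner_map_map (U.symm (b k)) (b j)
          rw [LinearIsometryEquiv.apply_symm_apply] at this
          exact this
        have e5 : ∑ j, ⟪b i, U (b j)⟫ * ⟪b i', U (b j)⟫
            = ∑ j, ⟪U.symm (b i), b j⟫ * ⟪b j, U.symm (b i')⟫ := by
          refine Finset.sum_congr rfl fun j _ => ?_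
          rw [e4, e4 i' j, real_inner_comm (b j) (U.symm (b i'))]
        rw [e5, b.sum_inner_mul_inner, LinearIsometryEquiv.inner_map_map]
        exact orthonormal_iff_ite.1 b.orthonormal i i'
      simp_rw [e3]
      simp [real_inner_self_eq_norm_sq]
    exact Finset.sum_congr rfl fun i _ => e2 i
  nlinarith [norm_nonneg (P10T b U p), norm_nonneg p,
    sq_nonneg (‖P10T b U p‖ - ‖p‖), (pow_left_inj₀ (norm_nonneg (P10T b U p)) (norm_nonneg p)
      two_ne_zero).1 h2]

omit [FiniteDimensional ℝ E] [FiniteDimensional ℝ H] [MeasurableSpace E] [BorelSpace E] in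
theorem P10_act_comp (b : OrthonormalBasis ι ℝ H) (U : H ≃ₗᵢ[ℝ] H) (p : PiLp 2 (fun _ : ι => E)) :
    act b p ∘L (U : H →L[ℝ] H) = act b (P10T b U p) := by
  ext h
  rw [P10_act_apply]
  simp only [P10T_apply, ContinuousLinearMap.coe_comp', Function.comp_apply]
  have e : U h = ∑ j, ⟪b j, h⟫ • U (b j) := by
    conv_lhs => rw [← b.sum_repr' h]
    rw [map_sum]
    exact Finset.sum_congr rfl fun j _ => by rw [map_smul]
  change act b p (U h) = _
  rw [e, map_sum]
  refine Finset.sum_congr rfl fun j _ => ?_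
  rw [map_smul, P10_act_apply]

theorem Psi_comp_left (b : OrthonormalBasis ι ℝ H) (U : H ≃ₗᵢ[ℝ] H) (D : E →L[ℝ] H) (y : E) :
    Psi b ((U : H →L[ℝ] H) ∘L D) y = Psi b D y := by
  let T : PiLp 2 (fun _ : ι => E) ≃ₗᵢ[ℝ] PiLp 2 (fun _ : ι => E) :=
    LinearIsometry.toLinearIsometryEquiv ⟨P10T b U, P10T_norm b U⟩ rfl
  have hT : ∀ p, T p = P10T b U p := fun p => rfl
  unfold Psi
  have hmp := T.measurePreserving
  rw [← hmp.lintegral_comp_emb T.toHomeomorph.measurableEmbedding (fun p => gw p * ker b p D y)]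
  refine lintegral_congr fun p => ?_
  have h1 : gw (T p) = gw p := by
    unfold gw
    rw [T.norm_map]
  have h2 : ker b p ((U : H →L[ℝ] H) ∘L D) y = ker b (T p) D y := by
    unfold ker
    rw [hT, ← P10_act_comp]
    rfl
  rw [h1, h2]

end P10

end Pool.Agent.Helper19.HO
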